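import Pool.Agent.R929.Shang.Exist

/-!
# The conjectural character formula for free alternative algebras fails

Let `V = k ^ D` with `D ≥ 3`, over a field `k` of characteristic zero. There are unique `a`, `b` in
the augmentation ideal with `[Φ : [L(0)]] = [k]` and `[Φ : [L(α₁ + α₂)]] = -[V]`, where
`Φ = λ (a [L(α₁ + α₂)] + b [L(0)])`, and `[Alt(V)] ≠ a`.

The recursion gives that, in degree `10` and for the first three variables, the sum of the
coefficients of `a` is `56961`. The free associative algebra is a quotient of the free alternative
algebra, so the corresponding part of `Alt(V)` has dimension at least `3 ^ 10 = 59049`.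

The definitions are in the file `Pool/Agent/R929/Shang/Defs.lean`. The numerical idea of comparing
with the free associative algebra is due to the seat helper710 of this team, who used it for the
operadic form of the question.
-/

set_option autoImplicit false

open Pool.Agent.R929.Shang

/-- For every `V` of dimension `D ≥ 3` the pair `a(V), b(V)` exists and is unique, and the class of
the free alternative algebra generated by `V` is different from `a(V)`. -/
theorem Pool.Agent.Results.MP_9e3efc_al.CharacterFormulaFails.result
    (k : Type) [Field k] [CharZero k] (D : ℕ) (hD : 3 ≤ D) :
    ∃ a b : MvPowerSeries (Fin D) ℤ, IsSolution a b ∧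
      (∀ a' b' : MvPowerSeries (Fin D) ℤ, IsSolution a' b' → a' = a ∧ b' = b) ∧
      altClass k D ≠ a :=
  ⟨aV D, bV D, isSolution_aV, fun _ _ h => isSolution_unique h, ne_altClass k hD isSolution_aV⟩
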